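import Pool.Agent.Q72.MX.Stm

/-!
JOB LC of project MX (helper72).
-/

set_option autoImplicit false

namespace Pool.Agent.Q66.MX

open Filter Topology Polynomial Pool.Agent.W996.EC Pool.Agent.Q72.MX

/-- a ray -/
noncomputable def ray (φ ρ : ℝ) : ℂ := (ρ : ℂ) * Complex.exp (φ * Complex.I)

theorem norm_ray {φ ρ : ℝ} (h : 0 ≤ ρ) : ‖ray φ ρ‖ = ρ := by
  unfold ray
  rw [norm_mul, Complex.norm_real, Complex.norm_exp_ofReal_mul_I, mul_one, Real.norm_of_nonneg h]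

theorem ray_mem {φ ρ0 η ρ : ℝ} (h0 : 0 < ρ0) (hη : 0 < η) (h : ρ0 ≤ ρ) : ray φ ρ ∈ Sec φ ρ0 η := by
  have hn := norm_ray (φ := φ) (h0.le.trans h)
  refine ⟨by rw [hn]; exact h, ?_⟩
  rw [hn]
  unfold ray
  rw [sub_self, norm_zero]
  exact mul_nonneg hη.le (h0.le.trans h)

theorem tendsto_q (φ : ℝ) : Tendsto (fun ρ : ℝ => (ray φ ρ)⁻¹) atTop (𝓝[≠] (0 : ℂ)) := by
  rw [tendsto_nhdsWithin_iff]
  refine ⟨?_, ?_⟩
  · rw [tendsto_zero_iff_norm_tendsto_zero]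
    refine Tendsto.congr' (f₁ := fun ρ : ℝ => ρ⁻¹) ?_ tendsto_inv_atTop_zero
    filter_upwards [eventually_ge_atTop 0] with ρ hρ
    rw [norm_inv, norm_ray hρ]
  · filter_upwards [eventually_gt_atTop 0] with ρ hρ
    show (ray φ ρ)⁻¹ ≠ 0
    apply inv_ne_zero
    rw [← norm_ne_zero_iff, norm_ray hρ.le]
    exact hρ.ne'

theorem mero_bound (h : ℂ → ℂ) (hh : MeromorphicAt h 0) :
    ∃ (K : ℝ) (m : ℕ), 0 < K ∧ ∀ᶠ q in 𝓝[≠] (0 : ℂ), ‖h q‖ ≤ K * ‖q‖⁻¹ ^ m := by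
  obtain ⟨n, hn⟩ := hh
  have hc := hn.continuousAt.norm
  have hev := hc.eventually (gt_mem_nhds (lt_add_one _))
  refine ⟨‖(fun z : ℂ => (z - 0) ^ n • h z) 0‖ + 1, n, by positivity, ?_⟩
  filter_upwards [hev.filter_mono nhdsWithin_le_nhds, self_mem_nhdsWithin] with q hq hq0
  have hq0' : q ≠ 0 := hq0
  have hqn : 0 < ‖q‖ := norm_pos_iff.2 hq0'
  simp only [sub_zero, smul_eq_mul, norm_mul, norm_pow] at hq ⊢
  have h1 : ‖h q‖ = (‖q‖ ^ n * ‖h q‖) * ‖q‖⁻¹ ^ n := by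
    rw [mul_comm (‖q‖ ^ n), mul_assoc, ← mul_pow, mul_inv_cancel₀ hqn.ne', one_pow, mul_one]
  rw [h1]
  exact mul_le_mul_of_nonneg_right hq.le (by positivity)

theorem decay (h : ℂ → ℂ) (hh : MeromorphicAt h 0) (p : ℂ[X]) (φ c ρ0 : ℝ) (hc : 0 < c)
    (hp : ∀ ρ, ρ0 ≤ ρ → (p.eval (ray φ ρ)).re ≤ -(c * ρ)) :
    Tendsto (fun ρ : ℝ => h (ray φ ρ)⁻¹ * Complex.exp (p.eval (ray φ ρ))) atTop (𝓝 0) := by
  obtain ⟨K, m, hK, hb⟩ := mero_bound h hh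
  have hb' := (tendsto_q φ).eventually hb
  have hlim : Tendsto (fun ρ : ℝ => K * (ρ ^ (m : ℝ) * Real.exp (-c * ρ))) atTop (𝓝 0) := by
    have := (tendsto_rpow_mul_exp_neg_mul_atTop_nhds_zero (m : ℝ) c hc).const_mul K
    rwa [mul_zero] at this
  rw [tendsto_zero_iff_norm_tendsto_zero]
  refine squeeze_zero' (Eventually.of_forall fun _ => norm_nonneg _) ?_ hlim
  filter_upwards [hb', eventually_ge_atTop ρ0, eventually_gt_atTop 0] with ρ h1 h2 h3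
  rw [norm_mul, Complex.norm_exp]
  rw [norm_inv, norm_ray h3.le, inv_inv] at h1
  rw [Real.rpow_natCast, ← mul_assoc]
  apply mul_le_mul h1 _ (Real.exp_pos _).le (by positivity)
  apply Real.exp_le_exp.2
  have := hp ρ h2
  linarith

theorem natDegree_sub {v w : ℂ[X]} (hv : v.coeff 0 = 0) (hw : w.coeff 0 = 0) (hne : v ≠ w) :
    1 ≤ (v - w).natDegree := by
  by_contra hlt
  have h0 : (v - w).natDegree = 0 := by omega
  have h1 := eq_C_of_natDegree_eq_zero h0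
  rw [coeff_sub, hv, hw, sub_zero, C_0] at h1
  exact hne (sub_eq_zero.1 h1)

theorem dom (hB : S_LB) {ι : Type} [Fintype ι] (u : ι → ℂ[X]) (g : ι → ℂ → ℂ)
    (hinj : Function.Injective u) (h0 : ∀ i, (u i).coeff 0 = 0)
    (hI : ∃ i, ¬ ∀ᶠ q in 𝓝[≠] (0 : ℂ), g i q = 0)
    (W : Finset ℂ[X]) (hW : ∀ w ∈ W, 1 ≤ w.natDegree) (u0 : ℂ[X]) (hu0 : 1 ≤ u0.natDegree) :
    ∃ (φ c ρ0 : ℝ) (i : ι), 0 < c ∧ 0 < ρ0 ∧ (¬ ∀ᶠ q in 𝓝[≠] (0 : ℂ), g i q = 0) ∧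
      (∀ ρ, ρ0 ≤ ρ → c * ρ ≤ (u0.eval (ray φ ρ)).re) ∧
      (∀ w ∈ W, (∀ ρ, ρ0 ≤ ρ → c * ρ ≤ (w.eval (ray φ ρ)).re) ∨
        (∀ ρ, ρ0 ≤ ρ → (w.eval (ray φ ρ)).re ≤ -(c * ρ))) ∧
      (∀ j, j ≠ i → (¬ ∀ᶠ q in 𝓝[≠] (0 : ℂ), g j q = 0) →
        ∀ ρ, ρ0 ≤ ρ → ((u j - u i).eval (ray φ ρ)).re ≤ -(c * ρ)) := by
  classical
  set D : Finset ℂ[X] := (Finset.univ.filter (fun x : ι × ι => x.1 ≠ x.2)).image
    (fun x : ι × ι => u x.1 - u x.2) with hD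
  obtain ⟨φ, c, ρ0, η, hc, hρ0, hη, H1, H2⟩ := hB (W ∪ D) u0 (by
    intro w hw
    rcases Finset.mem_union.1 hw with hw | hw
    · exact hW w hw
    · rw [hD, Finset.mem_image] at hw
      obtain ⟨x, hx, rfl⟩ := hw
      exact natDegree_sub (h0 _) (h0 _) (fun h => (Finset.mem_filter.1 hx).2 (hinj h))) hu0
  set I : Finset ι := Finset.univ.filter (fun i => ¬ ∀ᶠ q in 𝓝[≠] (0 : ℂ), g i q = 0) with hIdef
  have hIne : I.Nonempty := by
    obtain ⟨i, hi⟩ := hI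
    exact ⟨i, Finset.mem_filter.2 ⟨Finset.mem_univ _, hi⟩⟩
  obtain ⟨i, hiI, hmax⟩ := Finset.exists_max_image I
    (fun i => ((u i).eval (ray φ ρ0)).re) hIne
  have hsec : ∀ ρ, ρ0 ≤ ρ → ray φ ρ ∈ Sec φ ρ0 η := fun ρ h => ray_mem hρ0 hη h
  have hnr : ∀ ρ, ρ0 ≤ ρ → ‖ray φ ρ‖ = ρ := fun ρ h => norm_ray (hρ0.le.trans h)
  refine ⟨φ, c, ρ0, i, hc, hρ0, (Finset.mem_filter.1 hiI).2, ?_, ?_, ?_⟩
  · intro ρ hρ
    have := H1 _ (hsec ρ hρ)
    rwa [hnr ρ hρ] at this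
  · intro w hw
    rcases H2 w (Finset.mem_union_left _ hw) with h | h
    · left
      intro ρ hρ
      have := h _ (hsec ρ hρ)
      rwa [hnr ρ hρ] at this
    · right
      intro ρ hρ
      have := h _ (hsec ρ hρ)
      rwa [hnr ρ hρ] at this
  · intro j hji hj ρ hρ
    have hmem : u j - u i ∈ W ∪ D := by
      apply Finset.mem_union_right
      rw [hD, Finset.mem_image]
      exact ⟨(j, i), Finset.mem_filter.2 ⟨Finset.mem_univ _, hji⟩, rfl⟩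
    rcases H2 _ hmem with h | h
    · exfalso
      have h3 := h _ (hsec ρ0 le_rfl)
      rw [hnr ρ0 le_rfl, eval_sub, Complex.sub_re] at h3
      have h4 := hmax j (Finset.mem_filter.2 ⟨Finset.mem_univ _, hj⟩)
      have h5 : 0 < c * ρ0 := mul_pos hc hρ0
      linarith
    · have := h _ (hsec ρ hρ)
      rwa [hnr ρ hρ] at this

theorem dom2 {ι : Type} [Fintype ι] (u : ι → ℂ[X]) (g : ι → ℂ → ℂ)
    (hg : ∀ i, MeromorphicAt (g i) 0) (φ c ρ0 : ℝ) (i : ι) (hc : 0 < c)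
    (hi : ¬ ∀ᶠ q in 𝓝[≠] (0 : ℂ), g i q = 0)
    (hd : ∀ j, j ≠ i → (¬ ∀ᶠ q in 𝓝[≠] (0 : ℂ), g j q = 0) →
        ∀ ρ, ρ0 ≤ ρ → ((u j - u i).eval (ray φ ρ)).re ≤ -(c * ρ)) :
    Tendsto (fun ρ : ℝ => (∑ j, g j (ray φ ρ)⁻¹ * Complex.exp ((u j).eval (ray φ ρ))) *
      (g i (ray φ ρ)⁻¹ * Complex.exp ((u i).eval (ray φ ρ)))⁻¹) atTop (𝓝 1) := by
  classical
  have hne : ∀ᶠ q in 𝓝[≠] (0 : ℂ), g i q ≠ 0 := by
    rcases (hg i).eventually_eq_zero_or_eventually_ne_zero with h | h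
    · exact absurd h hi
    · exact h
  have hne' := (tendsto_q φ).eventually hne
  have hterm : ∀ j, Tendsto (fun ρ : ℝ => (g j (ray φ ρ)⁻¹ * Complex.exp ((u j).eval (ray φ ρ))) *
      (g i (ray φ ρ)⁻¹ * Complex.exp ((u i).eval (ray φ ρ)))⁻¹) atTop
      (𝓝 (if j = i then 1 else 0)) := by
    intro j
    by_cases hji : j = i
    · subst hji
      rw [if_pos rfl]
      refine Tendsto.congr' ?_ tendsto_const_nhds
      filter_upwards [hne'] with ρ hρ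
      rw [mul_inv_cancel₀ (mul_ne_zero hρ (Complex.exp_ne_zero _))]
    · rw [if_neg hji]
      by_cases hj : ∀ᶠ q in 𝓝[≠] (0 : ℂ), g j q = 0
      · refine Tendsto.congr' ?_ tendsto_const_nhds
        filter_upwards [(tendsto_q φ).eventually hj] with ρ hρ
        rw [hρ, zero_mul, zero_mul]
      · have := decay (fun q => g j q * (g i q)⁻¹) ((hg j).mul (hg i).inv) (u j - u i) φ c ρ0 hc
          (hd j hji hj)
        refine Tendsto.congr ?_ this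
        intro ρ
        rw [eval_sub, Complex.exp_sub, mul_inv, div_eq_mul_inv]
        ring
  have := tendsto_finsetSum Finset.univ (fun j _ => hterm j)
  rw [Finset.sum_ite_eq' Finset.univ i (fun _ => (1 : ℂ)), if_pos (Finset.mem_univ _)] at this
  refine this.congr ?_
  intro ρ
  rw [Finset.sum_mul]

/-- exponential order -/
def EO (f : ℂ → ℂ) : Prop :=
  ∃ (C : ℝ) (M : ℕ), 0 ≤ C ∧ ∀ᶠ q in 𝓝[≠] (0 : ℂ), ‖f q‖ ≤ Real.exp (C * ‖q‖⁻¹ ^ M)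

theorem ev_small : ∀ᶠ q in 𝓝[≠] (0 : ℂ), 1 ≤ ‖q‖⁻¹ := by
  have h1 : ∀ᶠ q in 𝓝[≠] (0 : ℂ), ‖q‖ < 1 := by
    apply Filter.Eventually.filter_mono nhdsWithin_le_nhds
    have := (continuous_norm (E := ℂ)).continuousAt (x := 0)
    exact this.eventually (gt_mem_nhds (by simp))
  filter_upwards [h1, self_mem_nhdsWithin] with q h2 h3
  have h3' : q ≠ 0 := h3
  exact (one_le_inv₀ (norm_pos_iff.2 h3')).2 h2.le

theorem EO.add {f g : ℂ → ℂ} (hf : EO f) (hg : EO g) : EO (fun q => f q + g q) := by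
  obtain ⟨C1, M1, h1, e1⟩ := hf
  obtain ⟨C2, M2, h2, e2⟩ := hg
  refine ⟨C1 + C2 + 1, M1 + M2, by positivity, ?_⟩
  filter_upwards [e1, e2, ev_small] with q a b hq
  set x : ℝ := ‖q‖⁻¹ with hx
  have hp1 : x ^ M1 ≤ x ^ (M1 + M2) := pow_le_pow_right₀ hq (by omega)
  have hp2 : x ^ M2 ≤ x ^ (M1 + M2) := pow_le_pow_right₀ hq (by omega)
  have hp3 : 1 ≤ x ^ (M1 + M2) := one_le_pow₀ hq
  have hp4 : 0 ≤ x ^ (M1 + M2) := by linarith
  set y : ℝ := x ^ (M1 + M2) with hy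
  have a' : ‖f q‖ ≤ Real.exp ((C1 + C2) * y) := a.trans (Real.exp_le_exp.2 (by nlinarith))
  have b' : ‖g q‖ ≤ Real.exp ((C1 + C2) * y) := b.trans (Real.exp_le_exp.2 (by nlinarith))
  calc ‖f q + g q‖ ≤ ‖f q‖ + ‖g q‖ := norm_add_le _ _
    _ ≤ 2 * Real.exp ((C1 + C2) * y) := by linarith
    _ ≤ Real.exp y * Real.exp ((C1 + C2) * y) := by
        apply mul_le_mul_of_nonneg_right _ (Real.exp_pos _).le
        have := Real.add_one_le_exp y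
        linarith
    _ = Real.exp ((C1 + C2 + 1) * y) := by rw [← Real.exp_add]; congr 1; ring

theorem EO.mul {f g : ℂ → ℂ} (hf : EO f) (hg : EO g) : EO (fun q => f q * g q) := by
  obtain ⟨C1, M1, h1, e1⟩ := hf
  obtain ⟨C2, M2, h2, e2⟩ := hg
  refine ⟨C1 + C2, M1 + M2, by positivity, ?_⟩
  filter_upwards [e1, e2, ev_small] with q a b hq
  set x : ℝ := ‖q‖⁻¹ with hx
  have hp1 : x ^ M1 ≤ x ^ (M1 + M2) := pow_le_pow_right₀ hq (by omega)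
  have hp2 : x ^ M2 ≤ x ^ (M1 + M2) := pow_le_pow_right₀ hq (by omega)
  rw [norm_mul]
  calc ‖f q‖ * ‖g q‖ ≤ Real.exp (C1 * x ^ M1) * Real.exp (C2 * x ^ M2) :=
        mul_le_mul a b (norm_nonneg _) (Real.exp_pos _).le
    _ = Real.exp (C1 * x ^ M1 + C2 * x ^ M2) := by rw [Real.exp_add]
    _ ≤ Real.exp ((C1 + C2) * x ^ (M1 + M2)) := Real.exp_le_exp.2 (by nlinarith)

theorem EO.mero {h : ℂ → ℂ} (hh : MeromorphicAt h 0) : EO h := by
  obtain ⟨K, m, hK, hb⟩ := mero_bound h hh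
  refine ⟨K, m, hK.le, ?_⟩
  filter_upwards [hb] with q hq
  refine hq.trans ?_
  have := Real.add_one_le_exp (K * ‖q‖⁻¹ ^ m)
  linarith

theorem EO.zero : EO (fun _ => 0) := ⟨0, 0, le_rfl, Eventually.of_forall fun q => by
  simp⟩

theorem EO.sum {ι : Type} (s : Finset ι) (f : ι → ℂ → ℂ) (h : ∀ i ∈ s, EO (f i)) :
    EO (fun q => ∑ i ∈ s, f i q) := by
  classical
  induction s using Finset.induction_on with
  | empty => simpa using EO.zero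
  | insert a s ha ih =>
    have h1 := h a (Finset.mem_insert_self _ _)
    have h2 := ih (fun i hi => h i (Finset.mem_insert_of_mem hi))
    have h3 := h1.add h2
    have h4 : (fun q => ∑ i ∈ insert a s, f i q) = fun q => f a q + ∑ i ∈ s, f i q := by
      funext q
      rw [Finset.sum_insert ha]
    rw [h4]
    exact h3

theorem EO.exp (p : ℂ[X]) : EO (fun q => Complex.exp (p.eval q⁻¹)) := by
  induction p using Polynomial.induction_on' with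
  | add p q hp hq =>
    have := hp.mul hq
    simpa only [eval_add, Complex.exp_add] using this
  | monomial n a =>
    refine ⟨‖a‖, n, norm_nonneg _, Eventually.of_forall fun q => ?_⟩
    rw [Complex.norm_exp]
    apply Real.exp_le_exp.2
    refine (Complex.re_le_norm _).trans ?_
    simp

/-- the exponential sum -/
noncomputable def es {ι : Type} [Fintype ι] (u : ι → ℂ[X]) (g : ι → ℂ → ℂ) (q : ℂ) : ℂ :=
  ∑ i, g i q * Complex.exp ((u i).eval q⁻¹)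

theorem es_ray {ι : Type} [Fintype ι] (u : ι → ℂ[X]) (g : ι → ℂ → ℂ) (φ ρ : ℝ) :
    es u g (ray φ ρ)⁻¹ = ∑ j, g j (ray φ ρ)⁻¹ * Complex.exp ((u j).eval (ray φ ρ)) := by
  simp only [es, inv_inv]

theorem es_EO {ι : Type} [Fintype ι] (u : ι → ℂ[X]) (g : ι → ℂ → ℂ)
    (hg : ∀ i, MeromorphicAt (g i) 0) : EO (es u g) :=
  EO.sum Finset.univ _ (fun i _ => (EO.mero (hg i)).mul (EO.exp (u i)))

theorem es_an {ι : Type} [Fintype ι] (u : ι → ℂ[X]) (g : ι → ℂ → ℂ)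
    (hg : ∀ i, MeromorphicAt (g i) 0) : ∀ᶠ q in 𝓝[≠] (0 : ℂ), DifferentiableAt ℂ (es u g) q := by
  have h1 : ∀ᶠ q in 𝓝[≠] (0 : ℂ), ∀ i, AnalyticAt ℂ (g i) q := by
    rw [eventually_all]
    exact fun i => (hg i).eventually_analyticAt
  filter_upwards [h1, self_mem_nhdsWithin] with q h2 h3
  have h3' : q ≠ 0 := h3
  unfold es
  apply DifferentiableAt.fun_sum
  intro i _
  apply DifferentiableAt.mul (h2 i).differentiableAt
  apply DifferentiableAt.cexp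
  have hp : DifferentiableAt ℂ (fun z : ℂ => (u i).eval z) q⁻¹ := (u i).differentiable.differentiableAt
  exact hp.comp q (differentiableAt_inv h3')

theorem lc1 (hB : S_LB) {ι : Type} [Fintype ι] (u : ι → ℂ[X]) (g : ι → ℂ → ℂ)
    (hinj : Function.Injective u) (h0 : ∀ i, (u i).coeff 0 = 0) (hg : ∀ i, MeromorphicAt (g i) 0)
    (hz : ∀ᶠ q in 𝓝[≠] (0 : ℂ), es u g q = 0) :
    ∀ i, ∀ᶠ q in 𝓝[≠] (0 : ℂ), g i q = 0 := by
  by_contra hcon
  rw [not_forall] at hcon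
  obtain ⟨φ, c, ρ0, i, hc, hρ0, hi, -, -, hd⟩ := dom hB u g hinj h0 hcon ∅ (by simp) X (by simp)
  have ht := dom2 u g hg φ c ρ0 i hc hi hd
  have hz' := (tendsto_q φ).eventually hz
  have : Tendsto (fun ρ : ℝ => (∑ j, g j (ray φ ρ)⁻¹ * Complex.exp ((u j).eval (ray φ ρ))) *
      (g i (ray φ ρ)⁻¹ * Complex.exp ((u i).eval (ray φ ρ)))⁻¹) atTop (𝓝 0) := by
    refine Tendsto.congr' ?_ tendsto_const_nhds
    filter_upwards [hz'] with ρ hρ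
    rw [es_ray] at hρ
    rw [hρ, zero_mul]
  exact zero_ne_one (tendsto_nhds_unique this ht)

/-- in a dominated direction the exponent of a product formula is the dominating one -/
theorem const_of_dom {ι : Type} [Fintype ι] (u : ι → ℂ[X]) (g : ι → ℂ → ℂ)
    (hg : ∀ i, MeromorphicAt (g i) 0) (φ c ρ0 : ℝ) (i : ι) (hc : 0 < c)
    (hi : ¬ ∀ᶠ q in 𝓝[≠] (0 : ℂ), g i q = 0)
    (hd : ∀ j, j ≠ i → (¬ ∀ᶠ q in 𝓝[≠] (0 : ℂ), g j q = 0) →
        ∀ ρ, ρ0 ≤ ρ → ((u j - u i).eval (ray φ ρ)).re ≤ -(c * ρ))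
    (l : ℤ) (H : ℂ[X]) (G : ℂ → ℂ) (hG : AnalyticAt ℂ G 0) (hG0 : G 0 ≠ 0)
    (hf : ∀ᶠ q in 𝓝[≠] (0 : ℂ), es u g q = q ^ l * Complex.exp (H.eval q⁻¹) * G q)
    (hdir : (∀ ρ, ρ0 ≤ ρ → c * ρ ≤ ((H - u i).eval (ray φ ρ)).re) ∨
        (∀ ρ, ρ0 ≤ ρ → ((H - u i).eval (ray φ ρ)).re ≤ -(c * ρ))) : False := by
  have ht := dom2 u g hg φ c ρ0 i hc hi hd
  have hf' := (tendsto_q φ).eventually hf
  have hmz : MeromorphicAt (fun q : ℂ => q ^ l * G q) 0 :=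
    ((MeromorphicAt.id 0).zpow l).mul hG.meromorphicAt
  have hgne : ∀ᶠ q in 𝓝[≠] (0 : ℂ), g i q ≠ 0 := by
    rcases (hg i).eventually_eq_zero_or_eventually_ne_zero with h | h
    · exact absurd h hi
    · exact h
  have hGne : ∀ᶠ q in 𝓝[≠] (0 : ℂ), G q ≠ 0 :=
    (hG.continuousAt.eventually_ne hG0).filter_mono nhdsWithin_le_nhds
  rcases hdir with h | h
  · have h1 := decay (fun q => g i q * (q ^ l * G q)⁻¹) ((hg i).mul hmz.inv) (u i - H) φ c ρ0 hc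
      (by
        intro ρ hρ
        have := h ρ hρ
        rw [eval_sub, Complex.sub_re] at this ⊢
        linarith)
    have h2 := ht.mul h1
    rw [mul_zero] at h2
    have h3 : Tendsto (fun ρ : ℝ => ((∑ j, g j (ray φ ρ)⁻¹ * Complex.exp ((u j).eval (ray φ ρ))) *
      (g i (ray φ ρ)⁻¹ * Complex.exp ((u i).eval (ray φ ρ)))⁻¹) * ((fun q => g i q *
        (q ^ l * G q)⁻¹) (ray φ ρ)⁻¹ * Complex.exp ((u i - H).eval (ray φ ρ)))) atTop (𝓝 1) := by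
      refine Tendsto.congr' ?_ tendsto_const_nhds
      filter_upwards [hf', (tendsto_q φ).eventually hgne, (tendsto_q φ).eventually hGne,
        (tendsto_q φ).eventually self_mem_nhdsWithin] with ρ e1 e2 e3 e4
      have e4' : (ray φ ρ)⁻¹ ≠ 0 := e4
      rw [es_ray] at e1
      rw [e1]
      simp only [eval_sub, Complex.exp_sub, inv_inv]
      have e5 : ((ray φ ρ)⁻¹ ^ l) ≠ 0 := zpow_ne_zero _ e4'
      have e6 := Complex.exp_ne_zero ((u i).eval (ray φ ρ))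
      have e7 := Complex.exp_ne_zero (H.eval (ray φ ρ))
      generalize (ray φ ρ)⁻¹ ^ l = z1 at *
      generalize G (ray φ ρ)⁻¹ = z2 at *
      generalize g i (ray φ ρ)⁻¹ = z3 at *
      field_simp
    exact zero_ne_one (tendsto_nhds_unique h2 h3)
  · have h1 := decay (fun q => (q ^ l * G q) * (g i q)⁻¹) (hmz.mul (hg i).inv) (H - u i) φ c ρ0 hc h
    have h3 : Tendsto (fun ρ : ℝ => (∑ j, g j (ray φ ρ)⁻¹ * Complex.exp ((u j).eval (ray φ ρ))) *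
      (g i (ray φ ρ)⁻¹ * Complex.exp ((u i).eval (ray φ ρ)))⁻¹) atTop (𝓝 0) := by
      refine Tendsto.congr' ?_ h1
      filter_upwards [hf'] with ρ e1
      rw [es_ray] at e1
      rw [e1]
      simp only [eval_sub, Complex.exp_sub, inv_inv, mul_inv, div_eq_mul_inv]
      ring
    exact zero_ne_one (tendsto_nhds_unique h3 ht)

theorem lc (hA : S_LA) (hB : S_LB) : S_LC := by
  classical
  intro ι _ u g hinj h0 hg
  refine ⟨fun hz => lc1 hB u g hinj h0 hg hz, ?_⟩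
  intro hnz
  have hnz' : ∀ᶠ q in 𝓝[≠] (0 : ℂ), es u g q ≠ 0 := hnz
  have hI : ∃ i, ¬ ∀ᶠ q in 𝓝[≠] (0 : ℂ), g i q = 0 := by
    by_contra hcon
    rw [not_exists] at hcon
    have hcon : ∀ i, ∀ᶠ q in 𝓝[≠] (0 : ℂ), g i q = 0 := fun i => not_not.1 (hcon i)
    have h1 : ∀ᶠ q in 𝓝[≠] (0 : ℂ), ∀ i, g i q = 0 := by
      rw [eventually_all]; exact hcon
    obtain ⟨q, h2, h3⟩ := (h1.and hnz').exists
    apply h3
    unfold es
    exact Finset.sum_eq_zero fun i _ => by rw [h2 i, zero_mul]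
  -- the product formula
  obtain ⟨l, H, G, hG, hG0, hf⟩ : ∃ (l : ℤ) (H : ℂ[X]) (G : ℂ → ℂ), AnalyticAt ℂ G 0 ∧ G 0 ≠ 0 ∧
      ∀ᶠ q in 𝓝[≠] (0 : ℂ), es u g q = q ^ l * Complex.exp (H.eval q⁻¹) * G q := by
    obtain ⟨C, M, hC, hb⟩ := es_EO u g hg
    have hall := (hb.and (hnz'.and (es_an u g hg)))
    rw [eventually_nhdsWithin_iff, Metric.eventually_nhds_iff] at hall
    obtain ⟨r, hr, hall⟩ := hall
    have hmem : ∀ q ∈ PD r, ‖es u g q‖ ≤ Real.exp (C * ‖q‖⁻¹ ^ M) ∧ es u g q ≠ 0 ∧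
        DifferentiableAt ℂ (es u g) q := by
      intro q hq
      exact hall (by rw [dist_zero_right]; exact hq.2) hq.1
    exact hA (es u g) r C M hr (fun q hq => (hmem q hq).2.2.differentiableWithinAt)
      (fun q hq => (hmem q hq).2.1) (fun q hq => (hmem q hq).1)
  set W : Finset ℂ[X] := (Finset.univ.image (fun i => H - u i)).filter
    (fun w => 1 ≤ w.natDegree) with hWdef
  have hW : ∀ w ∈ W, 1 ≤ w.natDegree := fun w hw => (Finset.mem_filter.1 hw).2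
  have key : ∀ (φ c ρ0 : ℝ) (i : ι), 0 < c → (¬ ∀ᶠ q in 𝓝[≠] (0 : ℂ), g i q = 0) →
      (∀ w ∈ W, (∀ ρ, ρ0 ≤ ρ → c * ρ ≤ (w.eval (ray φ ρ)).re) ∨
        (∀ ρ, ρ0 ≤ ρ → (w.eval (ray φ ρ)).re ≤ -(c * ρ))) →
      (∀ j, j ≠ i → (¬ ∀ᶠ q in 𝓝[≠] (0 : ℂ), g j q = 0) →
        ∀ ρ, ρ0 ≤ ρ → ((u j - u i).eval (ray φ ρ)).re ≤ -(c * ρ)) →
      u i = H - C (H.coeff 0) := by
    intro φ c ρ0 i hc hi hw hd
    have hdeg : (H - u i).natDegree = 0 := by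
      by_contra hne
      have hmem : H - u i ∈ W := Finset.mem_filter.2
        ⟨Finset.mem_image.2 ⟨i, Finset.mem_univ _, rfl⟩, by omega⟩
      exact const_of_dom u g hg φ c ρ0 i hc hi hd l H G hG hG0 hf (hw _ hmem)
    have h1 := eq_C_of_natDegree_eq_zero hdeg
    rw [coeff_sub, h0 i, sub_zero] at h1
    rw [← h1]; ring
  obtain ⟨φ, c, ρ0, i0, hc, hρ0, hi, -, hw, hd⟩ := dom hB u g hinj h0 hI W hW X (by simp)
  have k0 := key φ c ρ0 i0 hc hi hw hd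
  refine ⟨i0, ?_⟩
  intro j hj
  by_contra hjI
  obtain ⟨φ', c', ρ0', i1, hc', hρ0', hi1, hu1, hw1, hd1⟩ := dom hB u g hinj h0 hI W hW
    (u j - u i0) (natDegree_sub (h0 _) (h0 _) (fun h => hj (hinj h)))
  have k1 := key φ' c' ρ0' i1 hc' hi1 hw1 hd1
  have hi01 : i1 = i0 := hinj (k1.trans k0.symm)
  subst hi01
  have h1 := hd1 j hj hjI ρ0' le_rfl
  have h2 := hu1 ρ0' le_rfl
  have h3 : 0 < c' * ρ0' := mul_pos hc' hρ0'
  linarith

end Pool.Agent.Q66.MX
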