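import Pool.Agent.Q72.MX.Stm

/-!
JOBS PP, G01 of project MX (helper72).
-/

set_option autoImplicit false

namespace Pool.Agent.Q66.MX

open Filter Topology Polynomial Pool.Agent.W996.EC Pool.Agent.Q72.MX

theorem pp_aux (n : ℕ) : ∀ G : ℂ → ℂ, AnalyticAt ℂ G 0 →
    ∃ (u : ℂ[X]) (k : ℂ → ℂ), u.coeff 0 = 0 ∧ AnalyticAt ℂ k 0 ∧
      ∀ᶠ q in 𝓝[≠] (0 : ℂ), q⁻¹ ^ n * G q = u.eval q⁻¹ + k q := by
  induction n with
  | zero =>
    intro G hG
    exact ⟨0, G, by simp, hG, Eventually.of_forall fun q => by simp⟩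
  | succ n ih =>
    intro G hG
    have hG1 : AnalyticAt ℂ (dslope G 0) 0 := by
      obtain ⟨p, hp⟩ := hG
      exact hp.has_fpower_series_dslope_fslope.analyticAt
    obtain ⟨u, k, hu, hk, he⟩ := ih _ hG1
    refine ⟨C (G 0) * X ^ (n + 1) + u, k, ?_, hk, ?_⟩
    · simp [hu]
    · filter_upwards [he, self_mem_nhdsWithin] with q hq hq0
      have hq0' : q ≠ 0 := hq0
      have h1 : G q = G 0 + q * dslope G 0 q := by
        have := sub_smul_dslope G 0 q
        simp only [sub_zero, smul_eq_mul] at this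
        rw [this]; ring
      rw [h1]
      simp only [eval_add, eval_mul, eval_C, eval_pow, eval_X]
      have h2 : q⁻¹ ^ (n + 1) * (G 0 + q * dslope G 0 q) =
          G 0 * q⁻¹ ^ (n + 1) + q⁻¹ ^ n * dslope G 0 q := by
        rw [pow_succ]
        field_simp
      rw [h2, hq]; ring

theorem pp : S_PP := by
  intro g hg
  obtain ⟨n, hn⟩ := hg
  obtain ⟨u, k, hu, hk, he⟩ := pp_aux n _ hn
  refine ⟨u, k, hu, hk, ?_⟩
  filter_upwards [he, self_mem_nhdsWithin] with q hq hq0
  have hq0' : q ≠ 0 := hq0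
  rw [← hq]
  simp only [sub_zero, smul_eq_mul]
  rw [← mul_assoc, ← mul_pow, inv_mul_cancel₀ hq0', one_pow, one_mul]

theorem g01 : S_G01 := by
  intro c0 A hA hG
  obtain ⟨a, ha, haA⟩ := hG
  rcases ha.eventually_eq_zero_or_eventually_ne_zero with h | h
  · left
    have hop : IsOpen (LH c0) := by
      unfold LH
      exact isOpen_lt Complex.continuous_re continuous_const
    have hcv : Convex ℝ (LH c0) := by
      have : LH c0 = Complex.reCLM ⁻¹' (Set.Iio c0) := by
        ext w; simp [LH]
      rw [this]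
      exact (convex_Iio c0).linear_preimage Complex.reCLM.toLinearMap
    rw [eventually_nhdsWithin_iff, Metric.eventually_nhds_iff] at h
    obtain ⟨ε, hε, h⟩ := h
    have hz : ∀ w : ℂ, w.re < c0 → w.re < Real.log ε → A w = 0 := by
      intro w hw hw2
      rw [haA w hw]
      apply h
      · rw [dist_zero_right, Complex.norm_exp]
        calc Real.exp w.re < Real.exp (Real.log ε) := Real.exp_lt_exp.2 hw2
          _ = ε := Real.exp_log hε
      · exact Complex.exp_ne_zero w
    have han : AnalyticOnNhd ℂ A (LH c0) := hA.analyticOnNhd hop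
    set w0 : ℂ := ((min c0 (Real.log ε) - 1 : ℝ) : ℂ) with hw0
    have hw0re : w0.re = min c0 (Real.log ε) - 1 := by rw [hw0, Complex.ofReal_re]
    have hmem : w0 ∈ LH c0 := by
      show w0.re < c0
      rw [hw0re]; linarith [min_le_left c0 (Real.log ε)]
    have hev : A =ᶠ[𝓝 w0] 0 := by
      have h1 : ∀ᶠ w : ℂ in 𝓝 w0, w.re < c0 := by
        apply (Complex.continuous_re.continuousAt).eventually_lt continuousAt_const
        exact hmem
      have h2 : ∀ᶠ w : ℂ in 𝓝 w0, w.re < Real.log ε := by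
        apply (Complex.continuous_re.continuousAt).eventually_lt continuousAt_const
        rw [hw0re]; linarith [min_le_right c0 (Real.log ε)]
      filter_upwards [h1, h2] with w h3 h4
      exact hz w h3 h4
    have := han.eqOn_zero_of_preconnected_of_eventuallyEq_zero hcv.isPreconnected hmem hev
    intro w hw
    exact this hw
  · right
    exact ⟨a, ha, h, haA⟩

end Pool.Agent.Q66.MX
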